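import Mathlib
import Pool.Agent.Y896.HS.Stm
import Pool.Agent.Y896.HS.B

/-!
# HS-EX : existence of invariant metrics on `G/H` (helper908)
-/

set_option autoImplicit false

open Matrix
open scoped Matrix.Norms.Frobenius

namespace Pool.Agent.Y908.HS

open Pool.Agent.W544.EG (Mat LieAlg Gs ipsM)

section
variable {V : Type*} [NormedAddCommGroup V] [InnerProductSpace ℝ V]

theorem orth_of_isom {k : ℕ} (m : Submodule ℝ V) (b : OrthonormalBasis (Fin k) ℝ m) (φ : V → V)
    (hφm : ∀ x ∈ m, φ x ∈ m) (hφi : ∀ x y, inner ℝ (φ x) (φ y) = inner ℝ x y) :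
    ∃ O ∈ Matrix.orthogonalGroup (Fin k) ℝ, ∀ j, φ (b j : V) = ∑ i, O i j • (b i : V) := by
  let v : Fin k → m := fun j => ⟨φ (b j), hφm _ (b j).2⟩
  let O : Matrix (Fin k) (Fin k) ℝ := Matrix.of fun i j => inner ℝ (b i) (v j)
  refine ⟨O, ?_, fun j => ?_⟩
  · rw [Matrix.mem_orthogonalGroup_iff']
    ext j l
    rw [Matrix.mul_apply]
    have h1 : ∀ i, Oᵀ j i * O i l = inner ℝ (v j) (b i) * inner ℝ (b i) (v l) := by
      intro i
      show inner ℝ (b i) (v j) * inner ℝ (b i) (v l) = _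
      rw [real_inner_comm]
    rw [Finset.sum_congr rfl fun i _ => h1 i, b.sum_inner_mul_inner]
    have h2 : inner ℝ (v j) (v l) = inner ℝ (b j) (b l) := by
      rw [Submodule.coe_inner, Submodule.coe_inner]
      exact hφi _ _
    rw [h2, orthonormal_iff_ite.1 b.orthonormal, Matrix.one_apply]
  · have h1 := b.sum_repr (v j)
    have h2 : ((∑ i, b.repr (v j) i • b i : m) : V) = φ (b j) := by rw [h1]
    rw [← h2, Submodule.coe_sum]
    refine Finset.sum_congr rfl fun i _ => ?_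
    rw [b.repr_apply_apply]
    rfl

theorem ex_basis [FiniteDimensional ℝ V] (LG LH : Submodule ℝ V) (hle : LH ≤ LG) :
    ∃ (k : ℕ) (X : Fin k → V), (∀ i, X i ∈ LG) ∧ LinearIndependent ℝ X ∧
      (∀ Y ∈ Submodule.span ℝ (Set.range X), Y ∈ LH → Y = 0) ∧
      (∀ Z ∈ LG, ∃ Y ∈ Submodule.span ℝ (Set.range X), Z - Y ∈ LH) ∧
      ∀ φ ψ : V → V, (∀ x ∈ LG, φ x ∈ LG) → (∀ x ∈ LH, ψ x ∈ LH) →
        (∀ x y, inner ℝ (φ x) (φ y) = inner ℝ x y) → (∀ x y, inner ℝ (ψ x) y = inner ℝ x (φ y)) →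
        ∃ O ∈ Matrix.orthogonalGroup (Fin k) ℝ, ∀ j, φ (X j) = ∑ i, O i j • X i := by
  set m : Submodule ℝ V := LG ⊓ LHᗮ with hm
  let b := stdOrthonormalBasis ℝ m
  have hspan : Submodule.span ℝ (Set.range fun i => (b i : V)) = m := by
    have h1 : (Set.range fun i => (b i : V)) = m.subtype '' Set.range b := by
      rw [← Set.range_comp]; rfl
    rw [h1, Submodule.span_image]
    have h2 : Submodule.span ℝ (Set.range b) = ⊤ := by
      have := b.toBasis.span_eq
      rwa [b.coe_toBasis] at this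
    rw [h2, Submodule.map_subtype_top]
  refine ⟨Module.finrank ℝ m, fun i => (b i : V), fun i => (b i).2.1, ?_, ?_, ?_, ?_⟩
  · have h1 := b.toBasis.linearIndependent
    rw [b.coe_toBasis] at h1
    exact h1.map' m.subtype m.ker_subtype
  · intro Y hY hYH
    rw [hspan] at hY
    have h1 := (Submodule.mem_orthogonal _ _).1 hY.2 Y hYH
    exact inner_self_eq_zero.1 h1
  · intro Z hZ
    rw [hspan]
    refine ⟨Z - LH.starProjection Z, ⟨?_, ?_⟩, ?_⟩
    · exact LG.sub_mem hZ (hle (LH.starProjection_apply_mem Z))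
    · exact LH.sub_starProjection_mem_orthogonal Z
    · rw [sub_sub_cancel]
      exact LH.starProjection_apply_mem Z
  · intro φ ψ hφ hψ hi ha
    refine orth_of_isom m b φ ?_ hi
    intro x hx
    refine ⟨hφ x hx.1, (Submodule.mem_orthogonal _ _).2 ?_⟩
    intro w hw
    rw [← ha]
    exact (Submodule.mem_orthogonal _ _).1 hx.2 _ (hψ w hw)

end

theorem t_EX : Pool.Agent.Y896.HS.S_EX := by
  intro N G H hcG hHG hcH
  obtain ⟨LG, hLG⟩ := Pool.Agent.Y896.HS.exists_lie hcG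
  obtain ⟨LH, hLH⟩ := Pool.Agent.Y896.HS.exists_lie hcH
  have mG : ∀ Z, Z ∈ LG ↔ Z ∈ LieAlg G := fun Z => by rw [← hLG]; rfl
  have mH : ∀ Z, Z ∈ LH ↔ Z ∈ LieAlg H := fun Z => by rw [← hLH]; rfl
  have hle : LH ≤ LG := by
    intro Z hZ
    rw [mG]
    rw [mH] at hZ
    intro t
    obtain ⟨u, hu, hue⟩ := hZ t
    exact ⟨u, hHG hu, hue⟩
  let _ := ipsM N
  obtain ⟨k, X, h1, h2, h3, h4, h5⟩ := ex_basis (V := Mat N) LG LH hle
  refine ⟨k, ⟨⟨X, fun i => (mG _).1 (h1 i), h2, fun Y hY hYH => h3 Y hY ((mH _).2 hYH), ?_, ?_⟩⟩⟩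
  · intro Z hZ
    obtain ⟨Y, hY, hZY⟩ := h4 Z ((mG _).2 hZ)
    exact ⟨Y, hY, (mH _).1 hZY⟩
  · intro h hh
    have hsm := Pool.Agent.W544.EG.unit_sm h
    have hms := Pool.Agent.W544.EG.unit_ms h
    have key : ∀ A B : Mat N, (inner ℝ (star (h : Mat N) * A * (h : Mat N)) B : ℝ) =
        inner ℝ A ((h : Mat N) * B * star (h : Mat N)) := by
      intro A B
      show (trace ((star (h : Mat N) * A * (h : Mat N))ᴴ * B)).re =
        (trace (Aᴴ * ((h : Mat N) * B * star (h : Mat N)))).re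
      congr 1
      rw [conjTranspose_mul, conjTranspose_mul, star_eq_conjTranspose, conjTranspose_conjTranspose]
      calc trace ((h : Mat N)ᴴ * (Aᴴ * (h : Mat N)) * B)
          = trace ((h : Mat N)ᴴ * (Aᴴ * (h : Mat N) * B)) := by simp only [Matrix.mul_assoc]
        _ = trace (Aᴴ * (h : Mat N) * B * (h : Mat N)ᴴ) := by rw [trace_mul_comm]
        _ = _ := by simp only [Matrix.mul_assoc]
    refine h5 (fun A => (h : Mat N) * A * star (h : Mat N))
      (fun A => star (h : Mat N) * A * (h : Mat N)) ?_ ?_ ?_ key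
    · intro A hA
      exact (mG _).2 (Pool.Agent.Y896.HS.conj_lie (hHG hh) ((mG _).1 hA))
    · intro A hA
      have := Pool.Agent.Y896.HS.conj_lie (H.inv_mem hh) ((mH _).1 hA)
      have e2 : ((h⁻¹ : unitaryGroup (Fin N) ℂ) : Mat N) = star (h : Mat N) := rfl
      rw [e2, star_star] at this
      exact (mH _).2 this
    · intro A B
      rw [← key]
      have e : star (h : Mat N) * ((h : Mat N) * A * star (h : Mat N)) * (h : Mat N) = A := by
        calc star (h : Mat N) * ((h : Mat N) * A * star (h : Mat N)) * (h : Mat N) =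
            (star (h : Mat N) * (h : Mat N)) * A * (star (h : Mat N) * (h : Mat N)) := by
              noncomm_ring
          _ = A := by rw [hsm, one_mul, mul_one]
      rw [e]

end Pool.Agent.Y908.HS
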