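import Mathlib
import Pool.Agent.Y896.HS.Stm

/-!
# HS-CH : a connected group covered by finitely many translates of a thick ball (helper908)
-/

set_option autoImplicit false

open Matrix
open scoped Matrix.Norms.Frobenius

namespace Pool.Agent.Y908.HS

open Pool.Agent.W544.EG (Mat LieAlg Gs BL IsLen IsG)

section
variable {N : ℕ} {G : Subgroup (unitaryGroup (Fin N) ℂ)} {L : Submodule ℝ (Mat N)}

/-- the thick ball of size `a` -/
def NB (G : Subgroup (unitaryGroup (Fin N) ℂ)) (L : Submodule ℝ (Mat N)) (q : Mat N → ℝ)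
    (t ε a : ℝ) : Set (Mat N) :=
  {x | x ∈ Gs G ∧ ∃ s ∈ BL L q (a * t), ‖s - x‖ < a * ε}

variable {q : Mat N → ℝ} {t ε : ℝ}

theorem NB.mul (hG : IsG (Gs G) L) {a b : ℝ} {x y : Mat N} (hx : x ∈ NB G L q t ε a)
    (hy : y ∈ NB G L q t ε b) : x * y ∈ NB G L q t ε (a + b) := by
  obtain ⟨hxG, s, hs, hsx⟩ := hx
  obtain ⟨hyG, s', hs', hsy⟩ := hy
  refine ⟨hG.mul _ hxG _ hyG, s * s', ?_, ?_⟩
  · rw [add_mul]
    exact BL.mul hs hs'
  · have e : s * s' - x * y = s * (s' - y) + (s - x) * y := by noncomm_ring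
    rw [e, add_mul]
    have h1 := norm_add_le (s * (s' - y)) ((s - x) * y)
    rw [hG.isom s (BL.mem hG hs), hG.isom' y hyG] at h1
    linarith

theorem NB.star (hG : IsG (Gs G) L) (hq : IsLen L q) {a : ℝ} {x : Mat N}
    (hx : x ∈ NB G L q t ε a) : Star.star x ∈ NB G L q t ε a := by
  obtain ⟨hxG, s, hs, hsx⟩ := hx
  refine ⟨hG.st _ hxG, Star.star s, BL.star hG hq hs, ?_⟩
  have hsG := BL.mem hG hs
  have e : Star.star s - Star.star x = Star.star s * ((x - s) * Star.star x) := by
    rw [sub_mul, mul_sub, hG.ms x hxG, mul_one, ← mul_assoc, hG.sm s hsG, one_mul]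
  rw [e, hG.isom _ (hG.st _ hsG), hG.isom' _ (hG.st _ hxG), norm_sub_rev]
  exact hsx

theorem NB.mono (ht : 0 ≤ t) (hε : 0 < ε) {a b : ℝ} (hab : a ≤ b) {x : Mat N}
    (hx : x ∈ NB G L q t ε a) : x ∈ NB G L q t ε b := by
  obtain ⟨hxG, s, hs, hsx⟩ := hx
  exact ⟨hxG, s, BL.mono (mul_le_mul_of_nonneg_right hab ht) hs,
    lt_of_lt_of_le hsx (mul_le_mul_of_nonneg_right hab hε.le)⟩

theorem NB.of_trans (hG : IsG (Gs G) L) {x f s : Mat N} (hx : x ∈ Gs G) (hf : f ∈ Gs G)
    (hs : s ∈ BL L q t) (h : ‖s * f - x‖ < ε) : x * Star.star f ∈ NB G L q t ε 1 := by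
  refine ⟨hG.mul _ hx _ (hG.st _ hf), s, by rwa [one_mul], ?_⟩
  have e : s - x * Star.star f = (s * f - x) * Star.star f := by
    rw [sub_mul, mul_assoc, hG.ms f hf, mul_one]
  rw [e, hG.isom' _ (hG.st _ hf), one_mul]
  exact h

end

theorem t_CH : Pool.Agent.Y896.HS.S_CH := by
  intro N G hc hcon L hL q hq t ε ht hε F hF hcov
  classical
  have hG : IsG (Gs G) L := Pool.Agent.W544.EG.isG hc hL
  have hpre : IsPreconnected (Gs G) := Pool.Agent.W544.EG.Gs_conn hcon
  have h1G : (1 : Mat N) ∈ Gs G := hG.one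
  obtain ⟨s0, hs0, f0, hf0, h0⟩ := hcov 1 h1G
  have hcard : 0 < F.card := Finset.card_pos.2 ⟨f0, hf0⟩
  have key : ∀ j : ℕ, min (j + 1) F.card ≤
      (F.filter (fun f => f ∈ NB G L q t ε (2 * (j : ℝ) + 1))).card := by
    intro j
    induction j with
    | zero =>
      refine (min_le_left _ _).trans ?_
      rw [zero_add, Nat.succ_le_iff, Finset.card_pos]
      refine ⟨f0, Finset.mem_filter.2 ⟨hf0, ?_⟩⟩
      have h1 := NB.star hG hq (NB.of_trans hG h1G (hF f0 hf0) hs0 h0)
      rw [one_mul, star_star] at h1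
      rw [Nat.cast_zero, mul_zero, zero_add]
      exact h1
    | succ j ih =>
      set A := F.filter (fun f => f ∈ NB G L q t ε (2 * (j : ℝ) + 1)) with hA
      set B := F.filter (fun f => f ∈ NB G L q t ε (2 * ((j + 1 : ℕ) : ℝ) + 1)) with hB
      have hAB : A ⊆ B := by
        intro f hf
        rw [hA, Finset.mem_filter] at hf
        rw [hB, Finset.mem_filter]
        refine ⟨hf.1, NB.mono ht hε ?_ hf.2⟩
        push_cast
        linarith
      by_cases hAF : A = F
      · have h1 : F.card ≤ B.card := by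
          have := Finset.card_le_card hAB
          rwa [hAF] at this
        exact (min_le_right _ _).trans h1
      · have hAne : A.Nonempty := by
          rw [← Finset.card_pos]
          have : 0 < min (j + 1) F.card := lt_min (Nat.succ_pos _) hcard
          omega
        obtain ⟨a, ha⟩ := hAne
        have hAsub : A ⊆ F := Finset.filter_subset _ _
        obtain ⟨b, hbF, hbA⟩ : ∃ b ∈ F, b ∉ A := by
          by_contra hcon'
          push Not at hcon'
          exact hAF (Finset.Subset.antisymm hAsub hcon')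
        let U : Finset (Mat N) → Set (Mat N) := fun K =>
          {x | ∃ s ∈ BL L q t, ∃ f ∈ K, ‖s * f - x‖ < ε}
        have hU : ∀ K, IsOpen (U K) := by
          intro K
          have e : U K = ⋃ s ∈ BL L q t, ⋃ f ∈ K, Metric.ball (s * f) ε := by
            ext x
            simp only [U, Set.mem_ofPred_eq, Set.mem_iUnion, Metric.mem_ball, dist_eq_norm,
              exists_prop]
            constructor
            · rintro ⟨s, hs, f, hf, h⟩
              exact ⟨s, hs, f, hf, by rwa [norm_sub_rev]⟩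
            · rintro ⟨s, hs, f, hf, h⟩
              exact ⟨s, hs, f, hf, by rwa [norm_sub_rev]⟩
          rw [e]
          exact isOpen_biUnion fun s _ => isOpen_biUnion fun f _ => Metric.isOpen_ball
        have hself : ∀ K : Finset (Mat N), ∀ f ∈ K, f ∈ U K := by
          intro K f hf
          refine ⟨1, BL.one ht, f, hf, ?_⟩
          rw [one_mul, sub_self, norm_zero]
          exact hε
        have hcov' : Gs G ⊆ U A ∪ U (F \ A) := by
          intro x hx
          obtain ⟨s, hs, f, hf, h⟩ := hcov x hx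
          by_cases hfA : f ∈ A
          · exact Or.inl ⟨s, hs, f, hfA, h⟩
          · exact Or.inr ⟨s, hs, f, Finset.mem_sdiff.2 ⟨hf, hfA⟩, h⟩
        obtain ⟨z, hzG, ⟨s, hs, f, hf, h⟩, ⟨s', hs', f', hf', h'⟩⟩ :=
          hpre _ _ (hU A) (hU (F \ A)) hcov' ⟨a, hF a (hAsub ha), hself A a ha⟩
            ⟨b, hF b hbF, hself _ b (Finset.mem_sdiff.2 ⟨hbF, hbA⟩)⟩
        have hfF : f ∈ F := hAsub hf
        rw [hA, Finset.mem_filter] at hf
        have hf'F := (Finset.mem_sdiff.1 hf').1
        have y1 := NB.of_trans hG hzG (hF f hfF) hs h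
        have y2 := NB.star hG hq (NB.of_trans hG hzG (hF f' hf'F) hs' h')
        rw [star_mul, star_star] at y2
        have y3 := NB.mul hG y2 (NB.mul hG y1 hf.2)
        have e : f' * Star.star z * (z * Star.star f * f) = f' := by
          rw [mul_assoc z, hG.sm f (hF f hfF), mul_one, mul_assoc, hG.sm z hzG, mul_one]
        rw [e] at y3
        have hf'B : f' ∈ B := by
          rw [hB, Finset.mem_filter]
          refine ⟨hf'F, ?_⟩
          have e2 : (1 : ℝ) + (1 + (2 * (j : ℝ) + 1)) = 2 * ((j + 1 : ℕ) : ℝ) + 1 := by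
            push_cast; ring
          rw [← e2]
          exact y3
        have hss : A ⊂ B := by
          rw [Finset.ssubset_iff_of_subset hAB]
          exact ⟨f', hf'B, (Finset.mem_sdiff.1 hf').2⟩
        have h1 := Finset.card_lt_card hss
        have h2 : min (j + 1 + 1) F.card ≤ min (j + 1) F.card + 1 := by omega
        omega
  intro x hx
  obtain ⟨s, hs, f, hf, h⟩ := hcov x hx
  have hk := key (F.card - 1)
  have e1 : F.card - 1 + 1 = F.card := Nat.sub_add_cancel hcard
  rw [e1, min_self] at hk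
  have hall := Finset.eq_of_subset_of_card_le (Finset.filter_subset _ _) hk
  have hfN : f ∈ NB G L q t ε (2 * ((F.card - 1 : ℕ) : ℝ) + 1) := by
    rw [← hall] at hf
    exact (Finset.mem_filter.1 hf).2
  have y := NB.mul hG (NB.of_trans hG hx (hF f hf) hs h) hfN
  have e2 : x * Star.star f * f = x := by
    rw [mul_assoc, hG.sm f (hF f hf), mul_one]
  rw [e2] at y
  have e3 : (1 : ℝ) + (2 * ((F.card - 1 : ℕ) : ℝ) + 1) = 2 * F.card := by
    have : ((F.card - 1 : ℕ) : ℝ) = (F.card : ℝ) - 1 := by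
      rw [Nat.cast_sub (by omega), Nat.cast_one]
    rw [this]; ring
  rw [e3] at y
  obtain ⟨_, s1, hs1, h1⟩ := y
  exact ⟨s1, hs1, h1⟩

end Pool.Agent.Y908.HS
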